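import Mathlib

/-!
# Thresholds in the plane (radius, window) and their level curves

`P a w` is the threshold of the labels of radius exponent `a` on windows of length exponent `w`,
`0 ≤ w ≤ a ≤ 1`. The level function `lev P Q q` is the least radius exponent at which the row `Q`
is reached at the velocity depth `q = a - w`. It is Lipschitz with constant one in `(Q, q)`, so no
jumps and no singular parts occur. If the derivative in `q` vanishes almost everywhere on the rows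
of a set `U`, the level curves of almost all rows of `U` are vertical: the thresholds on these rows
do not depend on the window.
-/

set_option autoImplicit false

namespace Pool.LEV

open MeasureTheory Set Filter Topology

/-- The laws of a threshold. -/
structure Law (P : ℝ → ℝ → ℝ) : Prop where
  mono_a : ∀ a a' w, 0 ≤ w → w ≤ a → a ≤ a' → a' ≤ 1 → P a w ≤ P a' w
  mono_w : ∀ a w w', 0 ≤ w → w ≤ w' → w' ≤ a → a ≤ 1 → P a w ≤ P a w'
  slope : ∀ a w v, 0 ≤ w → w ≤ a → 0 ≤ v → a + v ≤ 1 → min 1 (P a w + v) ≤ P (a + v) w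

/-- The radii at which the row `Q` is reached, at the velocity depth `q`. -/
def lset (P : ℝ → ℝ → ℝ) (Q q : ℝ) : Set ℝ := {a | q ≤ a ∧ a ≤ 1 ∧ (Q ≤ P a (a - q) ∨ a = 1)}

/-- **The level function.** -/
noncomputable def lev (P : ℝ → ℝ → ℝ) (Q q : ℝ) : ℝ := sInf (lset P Q q)

variable {P : ℝ → ℝ → ℝ}

theorem one_mem {Q q : ℝ} (hq : q ≤ 1) : (1 : ℝ) ∈ lset P Q q := ⟨hq, le_rfl, Or.inr rfl⟩

theorem lset_bdd {Q q : ℝ} : BddBelow (lset P Q q) := ⟨q, fun _ h => h.1⟩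

theorem lev_le_one {Q q : ℝ} (hq : q ≤ 1) : lev P Q q ≤ 1 := csInf_le lset_bdd (one_mem hq)

theorem le_lev {Q q : ℝ} (hq : q ≤ 1) : q ≤ lev P Q q :=
  le_csInf ⟨1, one_mem hq⟩ fun _ h => h.1

theorem lev_le {Q q a : ℝ} (h : a ∈ lset P Q q) : lev P Q q ≤ a := csInf_le lset_bdd h

theorem Law.mono {P : ℝ → ℝ → ℝ} (h : Law P) {a a' w w' : ℝ} (h0 : 0 ≤ w) (h1 : w ≤ a)
    (h2 : a ≤ a') (h3 : w ≤ w') (h4 : w' ≤ a') (h5 : a' ≤ 1) : P a w ≤ P a' w' :=
  (h.mono_a a a' w h0 h1 h2 h5).trans (h.mono_w a' w w' h0 h3 h4 h5)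

/-- The level function is monotone. -/
theorem lev_mono (h : Law P) {Q Q' q q' : ℝ} (h0 : 0 ≤ q) (hq : q ≤ q') (h1 : q' ≤ 1)
    (hQ : Q ≤ Q') : lev P Q q ≤ lev P Q' q' := by
  refine csInf_le_csInf lset_bdd ⟨1, one_mem h1⟩ ?_
  rintro a ⟨h2, h3, h4⟩
  refine ⟨hq.trans h2, h3, ?_⟩
  rcases h4 with h4 | h4
  · left
    exact (hQ.trans h4).trans (h.mono_w a (a - q') (a - q) (by linarith) (by linarith)
      (by linarith) h3)
  · right
    exact h4

/-- The level function increases by at most `s` when both arguments increase by `s`. -/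
theorem lev_add (h : Law P) {Q Q' q q' s : ℝ} (h0 : 0 ≤ q) (h1 : q ≤ 1) (h0' : 0 ≤ q')
    (h1' : q' ≤ 1) (hQ1 : Q' ≤ 1) (hs : 0 ≤ s) (hQ : Q' ≤ Q + s) (hq : q' ≤ q + s) :
    lev P Q' q' ≤ lev P Q q + s := by
  have : lev P Q' q' - s ≤ lev P Q q := by
    refine le_csInf ⟨1, one_mem h1⟩ ?_
    rintro a ⟨h2, h3, h4⟩
    rw [sub_le_iff_le_add]
    by_cases ha : a + s ≤ 1
    · refine lev_le ⟨by linarith, ha, ?_⟩
      rcases h4 with h4 | h4
      · left
        have h5 := h.slope a (a - q) s (by linarith) (by linarith) hs ha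
        have h6 := h.mono_w (a + s) (a - q) (a + s - q') (by linarith) (by linarith)
          (by linarith) ha
        have h7 : Q' ≤ min 1 (P a (a - q) + s) := le_min hQ1 (by linarith)
        linarith
      · right
        linarith
    · push Not at ha
      exact (lev_le_one h1').trans ha.le
  linarith

/-- The level function is Lipschitz with constant one. -/
theorem lev_lip (h : Law P) {Q Q' q q' s : ℝ} (h0 : 0 ≤ q) (h1 : q ≤ 1) (h0' : 0 ≤ q')
    (h1' : q' ≤ 1) (hQ : Q ≤ 1) (hQ' : Q' ≤ 1) (hs1 : |Q - Q'| ≤ s) (hs2 : |q - q'| ≤ s) :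
    |lev P Q q - lev P Q' q'| ≤ s := by
  have hs : 0 ≤ s := (abs_nonneg _).trans hs1
  rw [abs_le] at hs1 hs2 ⊢
  constructor
  · have := lev_add h (Q := Q) (Q' := Q') h0 h1 h0' h1' hQ' hs (by linarith) (by linarith)
    linarith
  · have := lev_add h (Q := Q') (Q' := Q) h0' h1' h0 h1 hQ hs (by linarith) (by linarith)
    linarith

/-- Below the level the row is not reached. -/
theorem lt_of_lt_lev {Q q a : ℝ} (h1 : q ≤ 1) (h2 : q ≤ a) (h3 : a < lev P Q q) :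
    P a (a - q) < Q := by
  by_contra hc
  push Not at hc
  exact absurd (lev_le ⟨h2, (h3.trans_le (lev_le_one h1)).le, Or.inl hc⟩) (not_le.2 h3)

/-- Above the level the row is reached. -/
theorem le_of_lev_lt (h : Law P) {Q q a : ℝ} (h0 : 0 ≤ q) (h1 : q ≤ 1) (h2 : lev P Q q < a)
    (h3 : a ≤ 1) : Q ≤ P a (a - q) := by
  obtain ⟨b, ⟨h4, h5, h6⟩, h7⟩ := exists_lt_of_csInf_lt ⟨1, one_mem h1⟩ h2
  rcases h6 with h6 | h6
  · exact h6.trans (h.mono (by linarith) (by linarith) h7.le (by linarith) (by linarith) h3)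
  · exact absurd (h6 ▸ h7) (not_lt.2 h3)

/-! ### The level function on the plane -/

/-- Clamping to the unit interval. -/
noncomputable def cl (x : ℝ) : ℝ := max 0 (min 1 x)

theorem cl_nonneg (x : ℝ) : 0 ≤ cl x := le_max_left _ _

theorem cl_le_one (x : ℝ) : cl x ≤ 1 := max_le zero_le_one (min_le_left _ _)

theorem cl_of_mem {x : ℝ} (h0 : 0 ≤ x) (h1 : x ≤ 1) : cl x = x := by
  rw [cl, min_eq_right h1, max_eq_right h0]

theorem cl_mono : Monotone cl := fun _ _ h => max_le_max le_rfl (min_le_min le_rfl h)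

theorem cl_lip (x y : ℝ) : |cl x - cl y| ≤ |x - y| := by
  have h1 : |max 0 (min 1 x) - max 0 (min 1 y)| ≤ |min 1 x - min 1 y| := by
    have := abs_max_sub_max_le_max (0 : ℝ) (min 1 x) 0 (min 1 y)
    simpa using this
  have h2 : |min 1 x - min 1 y| ≤ |x - y| := by
    have := abs_min_sub_min_le_max (1 : ℝ) x 1 y
    simpa using this
  exact h1.trans h2

/-- The level function on the plane. -/
noncomputable def Lv (P : ℝ → ℝ → ℝ) (p : ℝ × ℝ) : ℝ := lev P (cl p.1) (cl p.2)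

theorem Lv_eq {Q q : ℝ} (h0 : 0 ≤ q) (h1 : q ≤ 1) (h2 : 0 ≤ Q) (h3 : Q ≤ 1) :
    Lv P (Q, q) = lev P Q q := by
  rw [Lv, cl_of_mem h2 h3, cl_of_mem h0 h1]

theorem Lv_lip (h : Law P) : LipschitzWith 1 (Lv P) := by
  refine LipschitzWith.of_dist_le_mul fun p p' => ?_
  rw [NNReal.coe_one, one_mul, Real.dist_eq, Prod.dist_eq]
  exact lev_lip h (cl_nonneg _) (cl_le_one _) (cl_nonneg _) (cl_le_one _) (cl_le_one _)
    (cl_le_one _) ((cl_lip _ _).trans (le_max_left _ _)) ((cl_lip _ _).trans (le_max_right _ _))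

theorem Lv_mono (h : Law P) : Monotone (Lv P) := fun _ _ hp =>
  lev_mono h (cl_nonneg _) (cl_mono hp.2) (cl_le_one _) (cl_mono hp.1)

/-- The level function is differentiable almost everywhere. -/
theorem Lv_ae (h : Law P) : ∀ᵐ p : ℝ × ℝ, DifferentiableAt ℝ (Lv P) p :=
  (Lv_lip h).ae_differentiableAt

/-- Finitely many levels are differentiable at almost every point. -/
theorem ae_all {ι : Type*} [Countable ι] {L : ι → ℝ → ℝ → ℝ} (h : ∀ j, Law (L j)) :
    ∀ᵐ p : ℝ × ℝ, ∀ j, DifferentiableAt ℝ (Lv (L j)) p :=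
  ae_all_iff.2 fun j => Lv_ae (h j)

/-- The affine approximation. -/
theorem aff {f : ℝ × ℝ → ℝ} {p : ℝ × ℝ} (hd : DifferentiableAt ℝ f p) {ε : ℝ} (hε : 0 < ε) :
    ∃ d₀ : ℝ, 0 < d₀ ∧ ∀ p' : ℝ × ℝ, dist p' p ≤ d₀ →
      |f p' - f p - (fderiv ℝ f p (1, 0) * (p'.1 - p.1) + fderiv ℝ f p (0, 1) * (p'.2 - p.2))| ≤
        ε * dist p' p := by
  have h1 := hd.hasFDerivAt.isLittleO.def hε
  obtain ⟨d, hd, h2⟩ := Metric.eventually_nhds_iff.1 h1
  refine ⟨d / 2, by positivity, fun p' hp' => ?_⟩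
  have h3 := h2 (lt_of_le_of_lt hp' (by linarith))
  have h4 : fderiv ℝ f p (p' - p) =
      fderiv ℝ f p (1, 0) * (p'.1 - p.1) + fderiv ℝ f p (0, 1) * (p'.2 - p.2) := by
    have : p' - p = (p'.1 - p.1) • ((1 : ℝ), (0 : ℝ)) + (p'.2 - p.2) • ((0 : ℝ), (1 : ℝ)) := by
      ext <;> simp
    rw [this, map_add, map_smul, map_smul, smul_eq_mul, smul_eq_mul]
    ring
  rw [h4, Real.norm_eq_abs, ← dist_eq_norm] at h3
  exact h3

/-- The derivatives of a monotone function of two variables are nonnegative. -/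
theorem fderiv_nonneg {f : ℝ × ℝ → ℝ} (hf : Monotone f) {p v : ℝ × ℝ} (hv : 0 ≤ v)
    (hd : DifferentiableAt ℝ f p) : 0 ≤ fderiv ℝ f p v := by
  have h1 : HasDerivAt (fun t : ℝ => f (p + t • v)) (fderiv ℝ f p v) 0 := by
    have h2 : HasDerivAt (fun t : ℝ => p + t • v) v 0 := by
      simpa using ((hasDerivAt_id (0 : ℝ)).smul_const v).const_add p
    have h3 : HasFDerivAt f (fderiv ℝ f p) (p + (0 : ℝ) • v) := by
      rw [zero_smul, add_zero]
      exact hd.hasFDerivAt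
    exact h3.comp_hasDerivAt 0 h2
  have h4 : Monotone fun t : ℝ => f (p + t • v) := fun s t hst => hf (by
    have : s • v ≤ t • v := smul_le_smul_of_nonneg_right hst hv
    exact add_le_add le_rfl this)
  rw [← h1.deriv]
  exact h4.deriv_nonneg

/-- The two derivatives of a level function: nonnegative, with sum at most one. -/
theorem Lv_deriv (h : Law P) {p : ℝ × ℝ} (hd : DifferentiableAt ℝ (Lv P) p) :
    0 ≤ fderiv ℝ (Lv P) p (1, 0) ∧ 0 ≤ fderiv ℝ (Lv P) p (0, 1) ∧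
      fderiv ℝ (Lv P) p (1, 0) + fderiv ℝ (Lv P) p (0, 1) ≤ 1 := by
  refine ⟨fderiv_nonneg (Lv_mono h) ⟨zero_le_one, le_rfl⟩ hd,
    fderiv_nonneg (Lv_mono h) ⟨le_rfl, zero_le_one⟩ hd, ?_⟩
  have h1 : ‖fderiv ℝ (Lv P) p‖ ≤ 1 := by
    have := norm_fderiv_le_of_lipschitz ℝ (Lv_lip h) (x₀ := p)
    simpa using this
  rw [← map_add]
  have h2 : ((1 : ℝ), (0 : ℝ)) + (0, 1) = (1, 1) := by ext <;> simp
  rw [h2]
  have h3 := (fderiv ℝ (Lv P) p).le_opNorm (1, 1)
  have h4 : ‖((1 : ℝ), (1 : ℝ))‖ = 1 := by simp [Prod.norm_def]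
  rw [h4, mul_one] at h3
  exact (le_abs_self _).trans (h3.trans h1)

/-- **Gain.** If the derivative in `q` is positive, then deeper rows are reached at smaller radii
on smaller windows. -/
theorem gain {f : ℝ × ℝ → ℝ} {p : ℝ × ℝ} (hd : DifferentiableAt ℝ f p) {C : ℝ} (hC : 0 ≤ C)
    (h : fderiv ℝ f p (1, 0) < C * fderiv ℝ f p (0, 1)) :
    ∃ c : ℝ, 0 < c ∧ ∃ X₀ : ℝ, 0 < X₀ ∧ ∀ X : ℝ, 0 ≤ X → X ≤ X₀ →
      f (p.1 + X, p.2 - C * X) ≤ f p - c * X := by
  obtain ⟨c, hc⟩ : ∃ c, c = (C * fderiv ℝ f p (0, 1) - fderiv ℝ f p (1, 0)) / 2 := ⟨_, rfl⟩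
  have hc0 : 0 < c := by rw [hc]; linarith
  obtain ⟨d, hd0, h1⟩ := aff hd (ε := c / (1 + C)) (by positivity)
  refine ⟨c, hc0, d / (1 + C), by positivity, fun X hX hX1 => ?_⟩
  rw [le_div_iff₀ (by positivity)] at hX1
  have h2 : dist (p.1 + X, p.2 - C * X) p ≤ (1 + C) * X := by
    rw [Prod.dist_eq, Real.dist_eq, Real.dist_eq]
    simp only [add_sub_cancel_left, sub_sub_cancel_left, abs_neg]
    rw [abs_of_nonneg hX, abs_of_nonneg (by positivity)]
    refine max_le ?_ ?_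
    · nlinarith
    · nlinarith
  have h3 := h1 (p.1 + X, p.2 - C * X) (by linarith)
  have h4 := (abs_le.1 h3).2
  simp only [add_sub_cancel_left, sub_sub_cancel_left] at h4
  have h5 : c / (1 + C) * dist (p.1 + X, p.2 - C * X) p ≤ c * X := by
    calc c / (1 + C) * dist (p.1 + X, p.2 - C * X) p ≤ c / (1 + C) * ((1 + C) * X) :=
          mul_le_mul_of_nonneg_left h2 (by positivity)
      _ = c * X := by field_simp
  have h6 : 2 * c = C * fderiv ℝ f p (0, 1) - fderiv ℝ f p (1, 0) := by rw [hc]; ring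
  nlinarith

/-! ### The window-free deduction -/

/-- A Lipschitz function whose derivative vanishes almost everywhere is constant. -/
theorem const_of_deriv {φ : ℝ → ℝ} {K : NNReal} (hφ : LipschitzWith K φ) {b : ℝ} (hb : 0 ≤ b)
    (h : ∀ᵐ q : ℝ, q ∈ Ioo 0 b → deriv φ q = 0) : φ b = φ 0 := by
  have h1 := (hφ.lipschitzOnWith (s := uIcc 0 b)).absolutelyContinuousOnInterval.integral_deriv_eq_sub
  have h2 : ∫ q in (0 : ℝ)..b, deriv φ q = 0 := by
    rw [intervalIntegral.integral_of_le hb, integral_Ioc_eq_integral_Ioo]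
    refine (setIntegral_congr_ae measurableSet_Ioo (g := fun _ => (0 : ℝ)) ?_).trans (by simp)
    exact h
  linarith

/-- **The window-free deduction** in the chart `(Q, q)`. -/
theorem vert (h : Law P) {U : Set ℝ} {w₁ : ℝ} (hU : U ⊆ Icc 0 1)
    (hyp : ∀ᵐ p : ℝ × ℝ, p.1 ∈ U → 0 < p.2 → p.2 < 1 → w₁ < Lv P p - p.2 →
      DifferentiableAt ℝ (Lv P) p → ¬ 0 < fderiv ℝ (Lv P) p (0, 1)) :
    ∀ᵐ Q : ℝ, Q ∈ U → ∀ q, 0 ≤ q → q ≤ 1 → w₁ < lev P Q q - q → lev P Q q = lev P Q 0 := by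
  have h1 : ∀ᵐ p : ℝ × ℝ, DifferentiableAt ℝ (Lv P) p ∧ (p.1 ∈ U → 0 < p.2 → p.2 < 1 →
      w₁ < Lv P p - p.2 → ¬ 0 < fderiv ℝ (Lv P) p (0, 1)) := by
    filter_upwards [Lv_ae h, hyp] with p h2 h3
    exact ⟨h2, fun a b c d => h3 a b c d h2⟩
  rw [Measure.volume_eq_prod] at h1
  filter_upwards [Measure.ae_ae_of_ae_prod h1] with Q hQ hQU q hq0 hq1 hw
  have hQ0 := (hU hQU).1
  have hQ1 := (hU hQU).2
  have hlip : LipschitzWith 1 fun q => Lv P (Q, q) := by
    have h0 := (Lv_lip h).comp (LipschitzWith.prodMk_left (β := ℝ) Q)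
    rw [one_mul] at h0
    exact h0
  have h2 : Lv P (Q, q) = Lv P (Q, 0) := by
    refine const_of_deriv hlip hq0 ?_
    filter_upwards [hQ] with t ht htI
    obtain ⟨h3, h4⟩ := ht
    have h5 : HasDerivAt (fun s => Lv P (Q, s)) (fderiv ℝ (Lv P) (Q, t) (0, 1)) t :=
      h3.hasFDerivAt.comp_hasDerivAt t ((hasDerivAt_const t Q).prodMk (hasDerivAt_id t))
    rw [h5.deriv]
    refine le_antisymm (not_lt.1 (h4 hQU htI.1 (lt_of_lt_of_le htI.2 hq1) ?_))
      (Lv_deriv h h3).2.1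
    have h6 : |lev P Q q - lev P Q t| ≤ q - t := lev_lip h hq0 hq1 htI.1.le (htI.2.le.trans hq1)
      hQ1 hQ1 (by rw [sub_self, abs_zero]; linarith [htI.2])
      (by rw [abs_of_nonneg (by linarith [htI.2])])
    rw [Lv_eq htI.1.le (htI.2.le.trans hq1) hQ0 hQ1]
    have h7 := (abs_le.1 h6).2
    linarith
  rwa [Lv_eq hq0 hq1 hQ0 hQ1, Lv_eq le_rfl zero_le_one hQ0 hQ1] at h2

/-- **The window-free deduction**: on almost all rows of `U` the thresholds do not depend on the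
window, for all windows beyond `w₁`. -/
theorem window_free (h : Law P) {U : Set ℝ} {w₁ : ℝ} (hw₁ : 0 ≤ w₁) (hU : U ⊆ Icc 0 1)
    (hyp : ∀ᵐ p : ℝ × ℝ, p.1 ∈ U → 0 < p.2 → p.2 < 1 → w₁ < Lv P p - p.2 →
      DifferentiableAt ℝ (Lv P) p → ¬ 0 < fderiv ℝ (Lv P) p (0, 1)) :
    ∀ᵐ Q : ℝ, Q ∈ U → ∀ a w, w₁ < w → w ≤ a → a ≤ 1 →
      (a < lev P Q 0 → P a w < Q) ∧ (lev P Q 0 < a → Q ≤ P a w) := by
  filter_upwards [vert h hU hyp] with Q hQ hQU a w hw hwa ha
  refine ⟨fun h1 => ?_, fun h1 => ?_⟩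
  · have h2 := lt_of_lt_lev (P := P) (Q := Q) zero_le_one (by linarith) h1
    rw [sub_zero] at h2
    exact (h.mono_w a w a (by linarith) hwa le_rfl ha).trans_lt h2
  · by_contra hc
    push Not at hc
    have hq0 : 0 ≤ a - w := by linarith
    have hq1 : a - w ≤ 1 := by linarith
    have h2 : a ≤ lev P Q (a - w) := by
      by_contra h3
      push Not at h3
      have h4 := le_of_lev_lt h hq0 hq1 h3 ha
      rw [sub_sub_cancel] at h4
      linarith
    have h3 := hQ hQU (a - w) hq0 hq1 (by linarith)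
    linarith

end Pool.LEV
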