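import Pool.Agent.H76.GN.FtOne
import Pool.Agent.H1.GEN.Fx

/-!
# The exactness theorem with exact numbers in dimensions zero and one
-/

set_option autoImplicit false

namespace Pool.GEN

open Finset Real MvPolynomial
open Pool.Agent.H49.Ent Pool.Agent.H32.Dense Pool.STK Pool.KA Pool.KSAT Pool.K2S Pool.PB Pool.S6C

/-- **(FTX) in dimension zero.** -/
theorem ftx_zero : FTX 0 := by
  intro ρ al hρ _ g₀ _ s d _
  refine ⟨1, one_pos, fun K₀ N _ S hNe hS _ _ hno => ?_⟩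
  have hl : 0 < Real.log 2 := Real.log_pos one_lt_two
  refine Clp.not_false hNe (Clp.mono (J₂ := 1) (Clp.and (Clp.of (τ := 1) (Φ := fun _ F A =>
    0 < Pe F.p A) one_pos 0 fun J _ F A hA =>
    lt_of_lt_of_le (Real.exp_pos _) (hS 1 J F A hA).2.2.2.1) hno.clp) ?_)
  rintro J hJ F A ⟨hA, h3⟩
  have hJ0 : (1 : ℝ) ≤ J := by exact_mod_cast hJ
  rw [Finset.univ_eq_empty, Finset.sum_empty] at h3
  have h4 := CH_nonneg (isLaw_cond F.isLaw hA).nonneg (F.X J) F.W
  have h5 : 0 < ρ * Real.log 2 * J := by positivity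
  have h6 : (0 - ρ) * Real.log 2 * (J : ℝ) = -(ρ * Real.log 2 * J) := by ring
  rw [h6] at h3
  linarith [h4.trans h3]

/-- **(FTX) in dimension one.** -/
theorem ftx_one : FTX 1 := by
  intro ρ al hρ hal g₀ hg₀ s d hsd
  refine ⟨1, one_pos, fun K₀ N hN S hNe hS _ hact hno => ?_⟩
  have hs0 : s 0 = 0 := hsd.z 0 rfl
  refine one_core hρ hal (hN.q hg₀) hNe (fun τ J F A hA => ⟨(hS τ J F A hA).1,
    (hS τ J F A hA).2.1, (hS τ J F A hA).2.2.1, (hS τ J F A hA).2.2.2.1⟩) (hact 0 rfl) ?_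
  rw [Fin.sum_univ_one, hs0, sub_zero] at hno
  exact hno

end Pool.GEN
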