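import Pool.Agent.H76.GN.Full
import Pool.Agent.H71.GEN.Nst

/-!
# The exactness theorem when the fans span, and in dimension one

* `full_clp`: `full_cls` for classes of families and events.
* `spread_of_act`: an active coordinate of the direction is not a function of the point.
* `ftc_one : FTC 1`, `ftc_zero : FTC 0`.
-/

set_option autoImplicit false

namespace Pool.GEN

open Finset Real MvPolynomial
open Pool.Agent.H49.Ent Pool.Agent.H32.Dense Pool.STK Pool.KA Pool.KSAT Pool.K2S Pool.PB Pool.S6C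

variable {m n J : ℕ}

/-- **The points are full if the fans span**, for every class of families and events. -/
theorem full_clp {k : ℕ} {S : PCl (k + 1)}
    (hS : ∀ (τ : ℝ) (J : ℕ) (F : Fam (k + 1) J) (A : F.Ω → Prop), S.St τ J F A → F.Tr ∧
      F.Tm (τ * J) ∧ F.Rb (τ * J) ∧ Real.exp (-(τ * J)) ≤ Pe F.p A)
    (hs : ∀ g : ℝ, 0 < g → Bas S (fun J F A => ¬ PlU k (1 / 2 ^ ⌊g * J⌋₊) (Fam.pt F) F.d A))
    {g : ℝ} (hg : 0 < g) :
    Clp S (fun J F A => ((k + 1) * Real.log 2 - g) * J ≤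
      CH (Pool.Agent.H49.Ent.cond F.p A True) (F.X J) F.W) := by
  obtain ⟨c₁, hc₁, hlin⟩ := full_fam k hg
  have h0 : Clp S (fun J F A => CH (Pool.Agent.H49.Ent.cond F.p A True) (F.X J) F.W ≤
      ((k + 1) * Real.log 2 - g) * J → Hyp (1 / 2 ^ ⌊c₁ * J⌋₊) (Fam.pt F) F.d A) := by
    refine Clp.one ⟨1, fun J F _ => Hyp (1 / 2 ^ ⌊c₁ * J⌋₊) (Fam.pt F) F.d,
      fun _ _ _ => Hyp.hered _ _ _⟩ fun κ hκ => ?_
    obtain ⟨τ, hτ, J₁, h1⟩ := hlin κ hκ
    refine ⟨τ, hτ, J₁, fun J hJ F A hSt hL hX => ?_⟩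
    obtain ⟨a1, a2, a3, a4⟩ := hS τ J F A hSt
    exact h1 J hJ F a1 a2 a3 A a4 hX ⌊c₁ * J⌋₊ (Nat.floor_le (by positivity)) (hL 0)
  refine Clp.mono (J₂ := 0) (h0.and (hs c₁ hc₁).clp) ?_
  rintro J - F A ⟨h1, h2⟩
  by_contra hno
  push Not at hno
  exact h2 (h1 hno.le)

theorem floor_near {x y v : ℝ} {Q P : ℕ} (hQ : Q ≤ P) (h1 : |x - v| ≤ 1 / 2 ^ P)
    (h2 : |y - v| ≤ 1 / 2 ^ P) :
    |((⌊(2 : ℝ) ^ Q * x⌋ - ⌊(2 : ℝ) ^ Q * y⌋ : ℤ) : ℝ)| ≤ 3 := by
  have e0 : (0 : ℝ) < 2 ^ Q := by positivity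
  have e1 : (2 : ℝ) ^ Q * (1 / 2 ^ P) ≤ 1 := by
    rw [mul_one_div, div_le_one (by positivity)]
    exact pow_le_pow_right₀ (by norm_num) hQ
  have e2 : |(2 : ℝ) ^ Q * x - 2 ^ Q * y| ≤ 2 := by
    have h3 : |x - y| ≤ 2 * (1 / 2 ^ P) := by
      have h4 := abs_sub_le x v y
      rw [abs_sub_comm v y] at h4
      linarith
    rw [← mul_sub, abs_mul, abs_of_pos e0]
    calc (2 : ℝ) ^ Q * |x - y| ≤ 2 ^ Q * (2 * (1 / 2 ^ P)) := mul_le_mul_of_nonneg_left h3 e0.le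
      _ = 2 * (2 ^ Q * (1 / 2 ^ P)) := by ring
      _ ≤ 2 := by linarith
  have f1 := Int.floor_le ((2 : ℝ) ^ Q * x)
  have f2 := Int.lt_floor_add_one ((2 : ℝ) ^ Q * x)
  have f3 := Int.floor_le ((2 : ℝ) ^ Q * y)
  have f4 := Int.lt_floor_add_one ((2 : ℝ) ^ Q * y)
  rw [abs_le] at e2
  push_cast
  rw [abs_le]
  constructor <;> linarith [e2.1, e2.2]

/-- **An active coordinate of the direction is not a function of the point.** -/
theorem spread_of_act {N : ℚ → ℚ → ℝ} {al : ℝ} (hal : 0 < al) (hN : ActQ N al) {S : PCl n}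
    {k : Fin n} (hB : ActB N S k)
    (hS : ∀ (τ : ℝ) (J : ℕ) (F : Fam n J) (A : F.Ω → Prop), S.St τ J F A → 0 < Pe F.p A)
    {g : ℝ} (hg : 0 < g) :
    Bas S (fun J F A => ¬ PlU 0 (1 / 2 ^ ⌊g * J⌋₊) (Fam.pt F) F.d A) := by
  obtain ⟨g₀, hg₀, hact⟩ := hN (min (al / 2) (1 / 2)) (lt_min (by linarith) (by norm_num))
  obtain ⟨g', hg'0, hg'⟩ : ∃ g' : ℚ, (0 : ℝ) < g' ∧ (g' : ℝ) < min g₀ (min g 1) :=
    exists_rat_btwn (lt_min hg₀ (lt_min hg one_pos))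
  have hg'0' : 0 < g' := by exact_mod_cast hg'0
  have e1 : (g' : ℝ) < g₀ := hg'.trans_le (min_le_left _ _)
  have e2 : (g' : ℝ) < g := hg'.trans_le ((min_le_right _ _).trans (min_le_left _ _))
  have e3 : (g' : ℝ) < 1 := hg'.trans_le ((min_le_right _ _).trans (min_le_right _ _))
  have hN1 : al / 2 * g' ≤ N 0 g' := by
    by_contra hno
    push Not at hno
    have h1 := hact g' hg'0' e1.le 1
    have h2 : ((range 1).filter fun i : ℕ => N (i * (g' / (1 : ℕ))) ((i + 1) * (g' / (1 : ℕ))) <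
        (al - min (al / 2) (1 / 2)) * ((g' : ℝ) / (1 : ℕ))) = {0} := by
      rw [Finset.range_one, Finset.filter_singleton]
      simp only [Nat.cast_zero, zero_mul, zero_add, one_mul, Nat.cast_one, div_one]
      rw [if_pos]
      refine hno.trans_le (mul_le_mul_of_nonneg_right ?_ hg'0.le)
      have := min_le_left (al / 2) (1 / 2 : ℝ)
      linarith
    rw [h2, Finset.card_singleton] at h1
    have := min_le_right (al / 2) (1 / 2 : ℝ)
    push_cast at h1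
    linarith
  have hb := hB 0 g' le_rfl hg'0'.le (by exact_mod_cast e3.le) (al / 4 * g') (by positivity)
  have hpos : Bas S (fun J F A => 0 < Pe F.p A) :=
    ⟨1, one_pos, 0, fun J _ F A hA => hS 1 J F A hA⟩
  obtain ⟨c, hc⟩ : ∃ c, c = al / 4 * g' * Real.log 2 := ⟨_, rfl⟩
  have hc0 : 0 < c := by
    rw [hc]
    exact mul_pos (by positivity) (Real.log_pos one_lt_two)
  obtain ⟨J₂, hJ₂⟩ := exists_nat_gt (Real.log 7 / c)
  refine Bas.mono J₂ (hb.and hpos) ?_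
  rintro J hJ F A ⟨h1, hA⟩ ⟨ζ, hζ⟩
  have hJr : Real.log 7 / c < J := hJ₂.trans_le (by exact_mod_cast hJ)
  rw [div_lt_iff₀ hc0] at hJr
  have hcl := isLaw_cond F.isLaw hA
  have hQ : ⌊(g' : ℝ) * J⌋₊ ≤ ⌊g * J⌋₊ :=
    Nat.floor_le_floor (mul_le_mul_of_nonneg_right e2.le (Nat.cast_nonneg J))
  have h2 := CH_le_int hcl.nonneg hcl.sum_one (fun ω => F.D ⌊(g' : ℝ) * J⌋₊ ω k)
    (fun ω => (F.D ⌊((0 : ℚ) : ℝ) * J⌋₊ ω, (F.X J ω, F.W ω))) (fun _ => 3) (by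
      intro ω ω' hω hω' hW
      have a1 := (cond_pos_iff F.isLaw.nonneg A True ω).1 hω
      have a2 := (cond_pos_iff F.isLaw.nonneg A True ω').1 hω'
      have hpt : Fam.pt F ω = Fam.pt F ω' := (Prod.ext_iff.mp hW).2
      obtain ⟨d1, b1⟩ := hζ ω (of_eq_true a1.2)
      obtain ⟨d2, b2⟩ := hζ ω' (of_eq_true a2.2)
      have c1 := b1 k
      have c2 := b2 k
      rw [← hpt] at c2
      simp only [Finset.univ_eq_empty, Finset.sum_empty, sub_zero] at c1 c2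
      exact floor_near hQ c1 c2)
  have h3 : Ex (Pool.Agent.H49.Ent.cond F.p A True) (fun _ => Real.log (2 * 3 + 1)) =
      Real.log 7 := by
    unfold Ex
    rw [← Finset.sum_mul, hcl.sum_one]
    norm_num
  rw [h3] at h2
  have h4 : c * J ≤ (N 0 g' - al / 4 * g') * Real.log 2 * J := by
    rw [hc]
    refine mul_le_mul_of_nonneg_right (mul_le_mul_of_nonneg_right ?_
      (Real.log_nonneg one_le_two)) (Nat.cast_nonneg J)
    linarith
  have h5 : c * J ≤ Real.log 7 := h4.trans (h1.trans h2)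
  linarith

/-- (FT) in dimension one: no class with an active direction has points which are not full. -/
theorem one_core {ρ al : ℝ} (hρ : 0 < ρ) (hal : 0 < al) {N : ℚ → ℚ → ℝ} (hN : ActQ N al)
    {S : PCl 1} (hNe : S.Ne)
    (hS : ∀ (τ : ℝ) (J : ℕ) (F : Fam 1 J) (A : F.Ω → Prop), S.St τ J F A → F.Tr ∧
      F.Tm (τ * J) ∧ F.Rb (τ * J) ∧ Real.exp (-(τ * J)) ≤ Pe F.p A) (hact : ActB N S 0) :
    ¬ Bas S (fun J F A => CH (Pool.Agent.H49.Ent.cond F.p A True) (F.X J) F.W ≤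
      (1 - ρ) * Real.log 2 * J) := by
  intro hno
  have hpos : ∀ (τ : ℝ) (J : ℕ) (F : Fam 1 J) (A : F.Ω → Prop), S.St τ J F A → 0 < Pe F.p A :=
    fun τ J F A hA => lt_of_lt_of_le (Real.exp_pos _) (hS τ J F A hA).2.2.2
  have hl : 0 < Real.log 2 := Real.log_pos one_lt_two
  have h1 := full_clp (k := 0) hS
    (fun g hg => spread_of_act hal hN hact hpos hg) (g := ρ / 2 * Real.log 2) (by positivity)
  refine Clp.not_false hNe (Clp.mono (J₂ := 1) (h1.and hno.clp) ?_)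
  rintro J hJ F A ⟨h2, h3⟩
  have hJ0 : (1 : ℝ) ≤ J := by exact_mod_cast hJ
  have h4 := h2.trans h3
  push_cast at h4
  have h5 : 0 < ρ / 2 * Real.log 2 * J := by positivity
  nlinarith

/-- **(FT) in dimension one.** -/
theorem ftc_one : FTC 1 := by
  intro ρ al hρ hal g₀ hg₀
  refine ⟨1, one_pos, fun s u hsu w hw _ N hN => ⟨1, one_pos, fun K₀ S hNe hS _ hact hno => ?_⟩⟩
  have hs0 : s 0 = 0 := hsu.z 0 rfl
  refine one_core hρ hal (hN.q hg₀) hNe (fun τ J F A hA => ⟨(hS τ J F A hA).1,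
    (hS τ J F A hA).2.1, (hS τ J F A hA).2.2.1, (hS τ J F A hA).2.2.2.1⟩) (hact 0 rfl) ?_
  rw [Fin.sum_univ_one, hs0, sub_zero] at hno
  exact hno

end Pool.GEN
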