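import Pool.Agent.H71.GEN.Stm2
import Pool.Agent.H89.ZCL.ChsTls2
import Pool.Agent.H18.PB.Row2

/-!
# Leaves of codimension one in classes whose fans span hyperplanes

In a class of families in dimension `n` whose fans are not contained in planes of dimension
`n - 2`, (LEAF) follows from (STP) and (SLP). For `n = 1` the hypotheses are incompatible.
-/

set_option autoImplicit false

namespace Pool.GEN

open Finset Real MvPolynomial
open Pool.Agent.H49.Ent Pool.Agent.H32.Dense Pool.STK Pool.KA Pool.KSAT Pool.K2S Pool.PB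

variable {n J : ℕ}

/-- The tail at all rows implies the tail at the second half of the rows. -/
theorem tls_of_tla {S : FCl n} {c : ℝ} (hc : 0 < c) (h : TLA S c) : TLS S := by
  refine ⟨c * Real.log 2, mul_pos hc (Real.log_pos one_lt_two), fun η hη => ?_⟩
  refine Clg.mono (J₂ := 0) (h η hη) fun J _ F A h1 P hP _ => ?_
  have h2 := h1 P hP
  have h3 : ((n : ℝ) - c) * Real.log 2 = n * Real.log 2 - c * Real.log 2 := by ring
  rw [h3] at h2
  exact h2

/-- A mesh label is a label of a class. -/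
theorem ll_of_bl {F : Fam n J} {A : F.Ω → Prop} {i₁ : Fin n} {N K ρ i p : ℕ} {x : ℝ}
    (hx : 0 < x) (hN : 0 < N) (hJ : 2 * N / x ≤ J) (h1 : (i : ℝ) ≤ x / 2 * N) (h2 : i ≤ ρ)
    (h3 : (1 - x / 2) * N ≤ p) (h4 : p < ρ) (h5 : ρ ≤ N) (h : Bl F i₁ N K ρ i p A) :
    LL K x J F A := by
  have hNr : (0 : ℝ) < N := by exact_mod_cast hN
  have e1 : ((J / N : ℕ) : ℝ) * N ≤ J := by exact_mod_cast Nat.div_mul_le_self J N
  have e2 : (J : ℝ) < ((J / N : ℕ) : ℝ) * N + N := by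
    have := Nat.lt_div_mul_add hN (a := J)
    exact_mod_cast this
  have e3 : (0 : ℝ) ≤ ((J / N : ℕ) : ℝ) := Nat.cast_nonneg _
  have e4 : 2 * (N : ℝ) ≤ x * J := by
    rw [div_le_iff₀ hx] at hJ
    linarith
  have hρ : ρ * (J / N) ≤ J := (Nat.mul_le_mul_right _ h5).trans (Nat.mul_div_le J N)
  have hp : p * (J / N) ≤ J := (Nat.mul_le_mul_right _ (by omega)).trans (Nat.mul_div_le J N)
  have hi : i * (J / N) ≤ J := (Nat.mul_le_mul_right _ (by omega)).trans (Nat.mul_div_le J N)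
  refine ⟨i₁, i * (J / N), p * (J / N), ?_, ?_, hp, ?_⟩
  · push_cast
    have : (i : ℝ) * ((J / N : ℕ) : ℝ) ≤ x / 2 * N * ((J / N : ℕ) : ℝ) :=
      mul_le_mul_of_nonneg_right h1 e3
    have h6 : x / 2 * (((J / N : ℕ) : ℝ) * N) ≤ x / 2 * J :=
      mul_le_mul_of_nonneg_left e1 (by positivity)
    have h7 : x / 2 * (J : ℝ) ≤ x * J :=
      mul_le_mul_of_nonneg_right (by linarith) (Nat.cast_nonneg _)
    nlinarith
  · push_cast
    have h6 : (1 - x / 2) * N * ((J / N : ℕ) : ℝ) ≤ p * ((J / N : ℕ) : ℝ) :=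
      mul_le_mul_of_nonneg_right h3 e3
    by_cases hx1 : x / 2 ≤ 1
    · have h7 : (1 - x / 2) * (J - N) ≤ (1 - x / 2) * (((J / N : ℕ) : ℝ) * N) :=
        mul_le_mul_of_nonneg_left (by linarith) (by linarith)
      nlinarith
    · push Not at hx1
      have h7 : (0 : ℝ) ≤ p * ((J / N : ℕ) : ℝ) := by positivity
      have h8 : (1 - x) * (J : ℝ) ≤ 0 :=
        mul_nonpos_of_nonpos_of_nonneg (by linarith) (Nat.cast_nonneg _)
      linarith
  · exact Lab.mono hρ le_rfl le_rfl le_rfl hi le_rfl h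

/-- **(LEAF) for fans which span hyperplanes**, from (STP) and (SLP). -/
theorem leafw_top_of {S : FCl n} {c : ℝ} (hSTP : STP S) (hSLP : SLP S) (hc : 0 < c)
    (hNe : S.toP.Ne) (htl : TLA S c) {x : ℝ} (hx : 0 < x) :
    ¬ ∀ K : ℕ, Clg S (fun J F A => ¬ LL K x J F A) := by
  intro hno
  have htls := tls_of_tla hc htl
  obtain ⟨N, K₁, hleaf⟩ := leaf_thm (chs_of_tls htls) (row_cls htls) hSTP hSLP (x / 2)
    (half_pos hx) fun _ => 1
  obtain ⟨J₂, hJ₂⟩ := exists_nat_gt (2 * (N : ℝ) / x)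
  have hall : Clg S (fun J F A => ∀ K < K₁ + 1, ¬ LL K x J F A) :=
    Clg.all (K₁ + 1) fun K _ => hno K
  refine Clp.not_false hNe (clp_of_clg (Clg.mono (J₂ := J₂) (hleaf.and hall) ?_))
  rintro J hJ F A ⟨⟨K, hK, hN, i₁, i, p, ρ, h1, h2, h3, h4, h5, h6⟩, h7⟩
  have hJr : 2 * (N : ℝ) / x ≤ J := hJ₂.le.trans (by exact_mod_cast hJ)
  exact h7 K (by omega) (ll_of_bl hx (by omega) hJr h1 h2 h3 h4 h5 h6)

/-- **(LEAF) in dimension one.** -/
theorem leafw_one : LEAFw 1 := by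
  intro S c hc hNe _ hsps htl x hx hno
  obtain ⟨h₁, hh₁, hcht⟩ := chs_of_tls (tls_of_tla hc htl)
  obtain ⟨ψ, hψ, hsp⟩ := hsps h₁ hh₁
  refine Clp.not_false hNe (clp_of_clg (Clg.mono (J₂ := 0) (hcht.and hsp) ?_))
  rintro J - F A ⟨⟨i₁, m, s, h1⟩, h2⟩
  refine h2 A (fun _ h => h) ?_ ⟨fun y => (fun _ => m y, fun l => Fin.elim0 l), fun ω hω => ?_⟩
  · have h3 : Real.exp (-(ψ * J)) ≤ 1 := by
      rw [Real.exp_le_one_iff]
      have : 0 ≤ ψ * (J : ℝ) := by positivity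
      linarith
    calc _ ≤ 1 * Pe F.p A := mul_le_mul_of_nonneg_right h3 (Pe_nonneg F.isLaw A)
      _ = _ := one_mul _
  · obtain ⟨h3, -, h5⟩ := h1 ω hω
    refine ⟨fun l => Fin.elim0 l, fun i => ?_⟩
    have hi : i = i₁ := Subsingleton.elim _ _
    have hs : ∑ j, s (Fam.pt F ω) j * F.d ω j = 0 := by
      refine Finset.sum_eq_zero fun j _ => ?_
      have hj : j = i₁ := Subsingleton.elim _ _
      rw [hj, h3, zero_mul]
    rw [hs, sub_zero] at h5
    simpa [hi] using h5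

end Pool.GEN
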